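import Pool.Agent.L0h20.AS.Stm
import Pool.Agent.L0h20.SY.Count
import Pool.Agent.L0h20.SY.Closed

set_option autoImplicit false

/-!
# AS/PRM: the lower bound with natural numbers as parameters

Compare `main_bound` in `L0h36/BG/Param.lean` (helper36); `step_param` and `exists_partition` are
copied from there and from `L0h20/SY/Core.lean`.
-/

namespace Pool.Agent.L0h71.AS

open Pool.Agent.L0h36.BG Pool.Agent.L0h36.BF Pool.Agent.L0h20.SY Pool.Agent.L0h20.AS

/-- One step: the numbers fit. -/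
theorem step_param {q n t x y z : ℕ} (hq : 2 ≤ q) (hx : 4 * q * t * 2 ^ (q ^ 2) ≤ x)
    (hqx : q ≤ x) (hxy : x ≤ y) (hz : y ^ (q ^ 2 + 2) ≤ z) (hzn : z ≤ n) :
    4 * (t * ((n - q * ((n - y) / q)) ^ (q - 1)) ^ q) * (n - q * ((n - y) / q)) ^ q ≤
      (n - y) / q - (n - z) / q := by
  have hy2 : 2 ≤ y := by omega
  have hyz : y ≤ z := by
    refine le_trans ?_ hz
    calc y = y ^ 1 := (pow_one y).symm
      _ ≤ y ^ (q ^ 2 + 2) := Nat.pow_le_pow_right (by omega) (by omega)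
  set u := n - q * ((n - y) / q) with hu
  have hu1 : u ≤ 2 * y := by
    have h1 := Nat.div_add_mod (n - y) q
    have h2 := Nat.mod_lt (n - y) (show 0 < q by omega)
    omega
  have hpow : 4 * (t * (u ^ (q - 1)) ^ q) * u ^ q = 4 * t * u ^ (q ^ 2) := by
    have h1 : (u ^ (q - 1)) ^ q * u ^ q = u ^ (q ^ 2) := by
      rw [← pow_mul, ← pow_add]
      congr 1
      obtain ⟨k, rfl⟩ : ∃ k, q = k + 1 := ⟨q - 1, by omega⟩
      simp only [Nat.add_sub_cancel]
      ring
    calc 4 * (t * (u ^ (q - 1)) ^ q) * u ^ q = 4 * t * ((u ^ (q - 1)) ^ q * u ^ q) := by ring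
      _ = _ := by rw [h1]
  rw [hpow]
  have hmain : q * (4 * t * u ^ (q ^ 2)) + y ≤ z := by
    refine le_trans ?_ hz
    have h1 : u ^ (q ^ 2) ≤ 2 ^ (q ^ 2) * y ^ (q ^ 2) := by
      rw [← mul_pow]
      exact Nat.pow_le_pow_left hu1 _
    have h2 : q * (4 * t * u ^ (q ^ 2)) ≤ y ^ (q ^ 2 + 1) := by
      calc q * (4 * t * u ^ (q ^ 2)) ≤ q * (4 * t * (2 ^ (q ^ 2) * y ^ (q ^ 2))) := by gcongr
        _ = (4 * q * t * 2 ^ (q ^ 2)) * y ^ (q ^ 2) := by ring
        _ ≤ y * y ^ (q ^ 2) := Nat.mul_le_mul_right _ (hx.trans hxy)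
        _ = y ^ (q ^ 2 + 1) := by ring
    have h3 : y ≤ y ^ (q ^ 2 + 1) := by
      calc y = y ^ 1 := (pow_one y).symm
        _ ≤ y ^ (q ^ 2 + 1) := Nat.pow_le_pow_right (by omega) (by omega)
    calc q * (4 * t * u ^ (q ^ 2)) + y ≤ y ^ (q ^ 2 + 1) + y ^ (q ^ 2 + 1) := Nat.add_le_add h2 h3
      _ = 2 * y ^ (q ^ 2 + 1) := by ring
      _ ≤ y * y ^ (q ^ 2 + 1) := Nat.mul_le_mul_right _ hy2
      _ = y ^ (q ^ 2 + 2) := by ring
  have h4 : (n - z) / q + 4 * t * u ^ (q ^ 2) ≤ (n - y) / q := by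
    rw [← Nat.add_mul_div_left _ _ (show 0 < q by omega)]
    apply Nat.div_le_div_right
    omega
  omega

/-- A set whose size is a multiple of `q` has a partition into sets of size `q`. -/
theorem exists_partition {n q : ℕ} (a : ℕ) : ∀ U : Finset (Fin n), U.card = q * a →
    ∃ P : Finset (Finset (Fin n)), (∀ e ∈ P, e.card = q) ∧
      (∀ e ∈ P, ∀ f ∈ P, e ≠ f → Disjoint e f) ∧ (∀ x, x ∈ U → ∃ e ∈ P, x ∈ e) ∧
      ∀ e ∈ P, e ⊆ U := by
  classical
  induction a with
  | zero =>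
    intro U hU
    rw [Nat.mul_zero, Finset.card_eq_zero] at hU
    refine ⟨∅, by simp, by simp, ?_, by simp⟩
    intro x hx
    rw [hU] at hx
    simp at hx
  | succ a ih =>
    intro U hU
    obtain ⟨b, hb, hbc⟩ := Finset.exists_subset_card_eq (s := U) (n := q) (by
      rw [hU, Nat.mul_succ]
      omega)
    obtain ⟨P, h1, h2, h3, h4⟩ := ih (U \ b) (by
      rw [Finset.card_sdiff_of_subset hb, hU, hbc, Nat.mul_succ]
      omega)
    have h5 : ∀ e ∈ P, Disjoint b e := fun e he =>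
      Finset.disjoint_of_subset_right (h4 e he) Finset.disjoint_sdiff
    refine ⟨insert b P, ?_, ?_, ?_, ?_⟩
    · intro e he
      rcases Finset.mem_insert.1 he with rfl | he
      · exact hbc
      · exact h1 e he
    · intro e he f hf hef
      rcases Finset.mem_insert.1 he with he' | he'
      · rcases Finset.mem_insert.1 hf with hf' | hf'
        · exact absurd (he'.trans hf'.symm) hef
        · rw [he']
          exact h5 f hf'
      · rcases Finset.mem_insert.1 hf with hf' | hf'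
        · rw [hf']
          exact (h5 e he').symm
        · exact h2 e he' f hf' hef
    · intro x hx
      by_cases hxb : x ∈ b
      · exact ⟨b, Finset.mem_insert_self _ _, hxb⟩
      · obtain ⟨e, he, hxe⟩ := h3 x (Finset.mem_sdiff.2 ⟨hx, hxb⟩)
        exact ⟨e, Finset.mem_insert_of_mem he, hxe⟩
    · intro e he
      rcases Finset.mem_insert.1 he with rfl | he
      · exact hb
      · exact (h4 e he).trans Finset.sdiff_subset

/-! ### The atoms and the depth -/

section atoms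

variable {p n k : ℕ}

theorem atomic_AtK : Atomic (AtK p n k) := by
  refine ⟨?_, ?_, ?_, ?_⟩
  · intro φ
    constructor
    · intro h ψ hψ
      exact h ψ (Set.mem_insert_of_mem _ hψ)
    · intro h ψ hψ
      rcases hψ with hψ | hψ
      · obtain ⟨B, h1, h2⟩ := h φ (self_mem_subs φ)
        rw [hψ]
        exact ⟨B, h1, sup_neg_iff.2 h2⟩
      · exact h ψ hψ
  · intro m f h j ψ hψ
    exact h ψ (Set.mem_insert_of_mem _ (Set.mem_iUnion.2 ⟨j, hψ⟩))
  · intro m f h j ψ hψ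
    exact h ψ (Set.mem_insert_of_mem _ (Set.mem_iUnion.2 ⟨j, hψ⟩))
  · intro i m f h j ψ hψ
    exact h ψ (Set.mem_insert_of_mem _ (Set.mem_iUnion.2 ⟨j, hψ⟩))

theorem closed_occ (π : List (Fml p (Finset (Fin n)))) : ClosedS (Occurring π) := by
  refine ⟨?_, ?_, ?_, ?_⟩
  · rintro φ ⟨A, hA, h⟩
    exact ⟨A, hA, subs_trans h (Set.mem_insert_of_mem _ (self_mem_subs φ))⟩
  · rintro m f ⟨A, hA, h⟩ j
    exact ⟨A, hA, subs_trans h (Set.mem_insert_of_mem _ (Set.mem_iUnion.2 ⟨j, self_mem_subs _⟩))⟩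
  · rintro m f ⟨A, hA, h⟩ j
    exact ⟨A, hA, subs_trans h (Set.mem_insert_of_mem _ (Set.mem_iUnion.2 ⟨j, self_mem_subs _⟩))⟩
  · rintro i m f ⟨A, hA, h⟩ j
    exact ⟨A, hA, subs_trans h (Set.mem_insert_of_mem _ (Set.mem_iUnion.2 ⟨j, self_mem_subs _⟩))⟩

variable {α : Type}

theorem sdepth_zero {At : Set (Fml p α)} {φ : Fml p α} (h : φ ∈ At) : sdepth At φ = 0 := by
  cases φ with
  | var x => rfl
  | neg φ => rw [sdepth, if_pos h]
  | and m f => rw [sdepth, if_pos h]
  | or m f => rw [sdepth, if_pos h]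
  | mod i m f => rw [sdepth, if_pos h]

theorem sdepth_neg {At : Set (Fml p α)} (hAt : Atomic At) (φ : Fml p α) :
    sdepth At φ ≤ sdepth At (Fml.neg φ) := by
  by_cases h : Fml.neg φ ∈ At
  · rw [sdepth_zero ((hAt.1 φ).1 h)]
    exact Nat.zero_le _
  · rw [sdepth, if_neg h]
    split_ifs
    · exact le_rfl
    · exact Nat.le_succ _

theorem sdepth_and {At : Set (Fml p α)} (hAt : Atomic At) {m : ℕ} (f : Fin m → Fml p α)
    (j : Fin m) : sdepth At (f j) ≤ sdepth At (Fml.and m f) := by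
  classical
  by_cases h : Fml.and m f ∈ At
  · rw [sdepth_zero (hAt.2.1 m f h j)]
    exact Nat.zero_le _
  · rw [sdepth, if_neg h]
    refine le_trans ?_ (le_max_right _ _)
    refine le_trans ?_ (Finset.le_sup (Finset.mem_univ j))
    split_ifs
    · exact le_rfl
    · exact Nat.le_succ _

theorem sdepth_or {At : Set (Fml p α)} (hAt : Atomic At) {m : ℕ} (f : Fin m → Fml p α)
    (j : Fin m) : sdepth At (f j) ≤ sdepth At (Fml.or m f) := by
  classical
  by_cases h : Fml.or m f ∈ At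
  · rw [sdepth_zero (hAt.2.2.1 m f h j)]
    exact Nat.zero_le _
  · rw [sdepth, if_neg h]
    refine le_trans ?_ (le_max_right _ _)
    refine le_trans ?_ (Finset.le_sup (Finset.mem_univ j))
    split_ifs
    · exact le_rfl
    · exact Nat.le_succ _

theorem sdepth_mod {At : Set (Fml p α)} (hAt : Atomic At) {i : ZMod p} {m : ℕ}
    (f : Fin m → Fml p α) (j : Fin m) : sdepth At (f j) ≤ sdepth At (Fml.mod i m f) := by
  by_cases h : Fml.mod i m f ∈ At
  · rw [sdepth_zero (hAt.2.2.2 i m f h j)]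
    exact Nat.zero_le _
  · rw [sdepth, if_neg h]
    exact (Finset.le_sup (f := fun j => sdepth At (f j)) (Finset.mem_univ j)).trans
      (Nat.le_succ _)

theorem sdepth_subs {At : Set (Fml p α)} (hAt : Atomic At) {φ ψ : Fml p α} (h : ψ ∈ φ.subs) :
    sdepth At ψ ≤ sdepth At φ := by
  induction φ with
  | var x =>
    have h' : ψ = Fml.var x := h
    rw [h']
  | neg φ ih =>
    rcases h with h | h
    · rw [h]
    · exact (ih h).trans (sdepth_neg hAt φ)
  | and m f ih =>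
    rcases h with h | h
    · rw [h]
    · obtain ⟨j, hj⟩ := Set.mem_iUnion.1 h
      exact (ih j hj).trans (sdepth_and hAt f j)
  | or m f ih =>
    rcases h with h | h
    · rw [h]
    · obtain ⟨j, hj⟩ := Set.mem_iUnion.1 h
      exact (ih j hj).trans (sdepth_or hAt f j)
  | mod i m f ih =>
    rcases h with h | h
    · rw [h]
    · obtain ⟨j, hj⟩ := Set.mem_iUnion.1 h
      exact (ih j hj).trans (sdepth_mod hAt f j)

end atoms

theorem dep_leaf {V : Type} [DecidableEq V] (q t : ℕ) (b : Bool) (m : Finset (Finset V)) :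
    Dep q (DT.leaf b : DT V) m t := by
  intro r hr
  rw [hr.leaf_inv, Finset.sdiff_self, Finset.card_empty]
  exact Nat.zero_le _

theorem t_PRM (hSTG : S_STG) (hSDM : S_SDM) (hTRE : S_TRE) (hROO : S_ROO) (hCYR : S_CYR)
    (hCAT : S_CAT) (hSND : S_SND) : S_PRM := by
  classical
  intro p q d b n k w L S hp hq hpq hb hn hqk hk hw hL hS π hpr hd hmod hC
  by_contra hsize
  push Not at hsize
  have hp2 := hp.two_le
  have hpow1 : 1 ≤ 2 ^ (q ^ 2) := Nat.one_le_two_pow
  have hq2 : q ≤ q ^ 2 := Nat.le_self_pow (by norm_num) q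
  have hCx : 100 * q ^ 2 * (p + 1) * 2 ^ (q ^ 2) + 100 * (d + 1) ≤ b := hb
  have hb100 : 100 * q ^ 2 * (p + 1) ≤ b := by
    have h1 : 100 * q ^ 2 * (p + 1) * 1 ≤ 100 * q ^ 2 * (p + 1) * 2 ^ (q ^ 2) :=
      Nat.mul_le_mul_left _ hpow1
    omega
  have hb100q : 100 * q ^ 2 ≤ b := by
    have h1 : 100 * q ^ 2 * 1 ≤ 100 * q ^ 2 * (p + 1) := Nat.mul_le_mul_left _ (by omega)
    omega
  have hb8 : 8 * q ^ 2 * 2 ^ (q ^ 2) ≤ b := by
    have h1 : 8 * q ^ 2 * 2 ^ (q ^ 2) ≤ 100 * q ^ 2 * (p + 1) * 2 ^ (q ^ 2) := by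
      apply Nat.mul_le_mul_right
      nlinarith [Nat.zero_le (q ^ 2), Nat.zero_le p]
    omega
  have hbqp : q * p ≤ b := by
    have h1 : q * p ≤ 100 * q ^ 2 * (p + 1) := by
      calc q * p ≤ q ^ 2 * (p + 1) := Nat.mul_le_mul hq2 (by omega)
        _ ≤ 100 * (q ^ 2 * (p + 1)) := Nat.le_mul_of_pos_left _ (by norm_num)
        _ = _ := by ring
    omega
  have hb1 : 1 ≤ b := by omega
  have hb100' : 100 ≤ b := by omega
  have hqb : q ≤ b := by omega
  obtain ⟨j0, hj0⟩ : ∃ j0, j0 = b + 1 := ⟨_, rfl⟩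
  obtain ⟨t, ht⟩ : ∃ t : ℕ → ℕ, t = fun h => q * j0 * b ^ h := ⟨_, rfl⟩
  obtain ⟨x, hx⟩ : ∃ x, x = b ^ (d + 6) := ⟨_, rfl⟩
  have hxb : ∀ m ≤ d + 6, b ^ m ≤ x := fun m hm => by
    rw [hx]
    exact Nat.pow_le_pow_right hb1 hm
  have hqx : q ≤ x := hqb.trans (by simpa using hxb 1 (by omega))
  have htD : ∀ h ≤ d + 1, t h ≤ 2 * q * b ^ (d + 2) := by
    intro h hh
    rw [ht]
    calc q * j0 * b ^ h ≤ q * (2 * b) * b ^ (d + 1) := by
          apply Nat.mul_le_mul
          · apply Nat.mul_le_mul_left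
            omega
          · exact Nat.pow_le_pow_right hb1 hh
      _ = 2 * q * b ^ (d + 2) := by ring
  have hxt : ∀ h ≤ d + 1, 4 * q * t h * 2 ^ (q ^ 2) ≤ x := by
    intro h hh
    calc 4 * q * t h * 2 ^ (q ^ 2) ≤ 4 * q * (2 * q * b ^ (d + 2)) * 2 ^ (q ^ 2) := by
          gcongr
          exact htD h hh
      _ = (8 * q ^ 2 * 2 ^ (q ^ 2)) * b ^ (d + 2) := by ring
      _ ≤ b * b ^ (d + 2) := Nat.mul_le_mul_right _ hb8
      _ = b ^ (d + 3) := by ring
      _ ≤ x := hxb _ (by omega)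
  obtain ⟨E, hE⟩ : ∃ E, E = q ^ 2 + 2 := ⟨_, rfl⟩
  have hE1 : 1 ≤ E := by omega
  have hx1 : 1 ≤ x := by rw [hx]; exact Nat.one_le_pow _ _ hb1
  have hxR : x ^ (E ^ d) = b ^ Rx q d := by
    rw [hx, ← pow_mul, hE]
    rfl
  obtain ⟨M, hM⟩ : ∃ M : ℕ → ℕ, M = fun h => x ^ (E ^ (d + 1 - h)) := ⟨_, rfl⟩
  have hM1 : M 1 ≤ n := by
    rw [hM]
    simp only [Nat.add_sub_cancel]
    rw [hxR]
    exact hn
  have hMx : ∀ h, x ≤ M h := by
    intro h
    rw [hM]
    calc x = x ^ 1 := (pow_one x).symm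
      _ ≤ x ^ (E ^ (d + 1 - h)) :=
        Nat.pow_le_pow_right hx1 (Nat.one_le_pow _ _ (by omega))
  have hMstep : ∀ h < d + 1, M (h + 1) ^ (q ^ 2 + 2) ≤ M h := by
    intro h hh
    have h1 : M (h + 1) ^ (q ^ 2 + 2) = M h := by
      rw [hM]
      simp only
      rw [← pow_mul]
      congr 1
      have : d + 1 - h = (d + 1 - (h + 1)) + 1 := by omega
      rw [this, pow_succ E, hE]
    rw [h1]
  have hMn : ∀ h, 1 ≤ h → M h ≤ n := by
    intro h hh
    refine le_trans ?_ hM1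
    rw [hM]
    exact Nat.pow_le_pow_right hx1 (Nat.pow_le_pow_right (by omega) (by omega))
  have hMd : M (d + 1) = x := by
    rw [hM]
    simp
  obtain ⟨A, hA⟩ : ∃ A : ℕ → ℕ, A = fun h => if h ≤ 1 then 0 else (n - M h) / q := ⟨_, rfl⟩
  have hA1 : A 1 = 0 := by rw [hA]; simp
  have hA2 : ∀ h, 1 ≤ h → A (h + 1) = (n - M (h + 1)) / q := by
    intro h hh
    rw [hA]
    simp only
    rw [if_neg (by omega)]
  have hbig : ∀ h < d + 1, 1 ≤ h → 4 * (t h * ((n - q * A (h + 1)) ^ (q - 1)) ^ q) *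
      (n - q * A (h + 1)) ^ q ≤ A (h + 1) - A h := by
    intro h hh h1
    rcases Nat.eq_or_lt_of_le h1 with h2 | h2
    · subst h2
      have h3 := step_param hq (hxt 1 (by omega)) hqx (hMx 2)
        ((hMstep 1 hh).trans hM1) (le_refl n)
      rw [Nat.sub_self, Nat.zero_div] at h3
      rw [hA1, hA2 1 le_rfl]
      exact h3
    · have h3 := step_param hq (hxt h (by omega)) hqx (hMx (h + 1)) (hMstep h hh) (hMn h h1)
      have h4 : A h = (n - M h) / q := by
        have h5 := hA2 (h - 1) (by omega)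
        rwa [Nat.sub_add_cancel h1] at h5
      rw [hA2 h h1, h4]
      exact h3
  have hn0 : 0 < n := by
    have := hMx 1
    omega
  have hle : ∀ h < d + 1, 1 ≤ h → q * A (h + 1) < n := by
    intro h hh h0
    rw [hA2 h h0]
    have h1 : q * ((n - M (h + 1)) / q) ≤ n - M (h + 1) := Nat.mul_div_le _ _
    have h2 := hMx (h + 1)
    omega
  have hlt : ∀ h < d + 1, 1 ≤ h → A h < A (h + 1) := by
    intro h hh h1
    have h2 := hbig h hh h1
    have h3 := hle h hh h1
    have h4 : 0 < n - q * A (h + 1) := by omega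
    have h5 : 0 < t h := by
      rw [ht]
      exact Nat.mul_pos (Nat.mul_pos (by omega) (by omega)) (Nat.pow_pos hb1)
    have h6 : 0 < 4 * (t h * ((n - q * A (h + 1)) ^ (q - 1)) ^ q) *
      (n - q * A (h + 1)) ^ q := by positivity
    omega
  have hcardV : Fintype.card (Fin n) = n := Fintype.card_fin n
  -- sizes
  have hxn : x ≤ n := (hMx 1).trans hM1
  have hb2x : b ^ 2 ≤ x := hxb 2 (by omega)
  have hkn : 2 * k + 1 < n := by nlinarith
  have hqpk : q * p * (k + 1) ≤ b ^ 2 := by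
    calc q * p * (k + 1) ≤ b * b := Nat.mul_le_mul hbqp hk
      _ = b ^ 2 := by ring
  -- the set R
  obtain ⟨r₀, l, hr₀, hkl, hdvd, hR⟩ := hCYR p q n k hp hq hpq (by omega)
  -- the stages
  obtain ⟨Γ, hΓ⟩ : ∃ Γ : Finset (Fml p (Finset (Fin n))), ∀ ψ, ψ ∈ Γ ↔ ψ ∈ Occurring π :=
    ⟨(occurring_finite π).toFinset, fun ψ => Set.Finite.mem_toFinset _⟩
  have hΓc : (Γ : Set (Fml p (Finset (Fin n)))) = Occurring π := by
    ext ψ
    exact hΓ ψ
  have hΓcard : 2 * Γ.card < 2 ^ j0 := by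
    have h1 : Γ.card < 2 ^ b := by
      rw [← Set.ncard_coe_finset, hΓc]
      exact hsize
    rw [hj0, pow_succ]
    omega
  obtain ⟨ρ, hρ, hρc, T, hT⟩ := hSTG (Fin n) p q w (AtK p n k) Γ (by omega) atomic_AtK
    (by rw [hΓc]; exact closed_occ π)
    (fun i m f h => (hmod i m f ((hΓ _).1 h)).imp (fun h => hS h) id) t j0
    (fun h => by rw [ht]; exact Nat.le_mul_of_pos_right _ (Nat.pow_pos hb1))
    (fun h => by
      calc w * t h ≤ b * t h := Nat.mul_le_mul_right _ hw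
        _ = t (h + 1) := by rw [ht]; simp only; ring)
    (fun h => by
      rw [ht]
      exact Nat.mul_le_mul_left _ (Nat.pow_le_pow_right hb1 (by omega))) hΓcard A hA1
    (T0 q k r₀) (by
      intro ψ hψ _
      by_cases h : ψ ∈ AtK p n k
      · have h1 := (hTRE p q n k r₀ (by omega) (by omega) ψ h).2.1 ∅ (PM.empty q)
        intro r hr
        refine (h1 r hr).trans ?_
        rw [ht]
        calc k ≤ b := by omega
          _ ≤ q * j0 * b ^ 1 := by
            rw [pow_one]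
            exact Nat.le_mul_of_pos_left _ (Nat.mul_pos (by omega) (by omega))
      · unfold T0
        rw [if_neg h]
        exact dep_leaf _ _ _ _) (d + 1) hlt (by rw [hcardV]; exact hle) (by rw [hcardV]; exact hbig)
    (d + 1) (by omega) (le_refl _)
  have hdo : ∀ ψ ∈ Occurring π, sdepth (AtK p n k) ψ < d + 1 := by
    rintro ψ ⟨B, hB, hsub⟩
    exact Nat.lt_succ_of_le ((sdepth_subs atomic_AtK hsub).trans
      ((hSDM p _ S (AtK p n k) atomic_AtK hS B).trans (hd B hB)))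
  have hT' : ∀ ψ ∈ Occurring π, Dep q (T ψ) ρ (t (d + 1)) ∧
      (ψ ∈ AtK p n k → T ψ = T0 q k r₀ ψ) ∧ (ψ ∉ AtK p n k → LCa q (AtK p n k) T ρ ψ) := by
    intro ψ hψ
    obtain ⟨h1, h2, h3⟩ := hT ψ ((hΓ ψ).2 hψ) (hdo ψ hψ)
    exact ⟨h1, fun h => h2 (sdepth_zero h), h3⟩
  -- the room
  have hroom : q * ρ.card + x ≤ n := by
    rw [hρc]
    rcases Nat.eq_zero_or_pos d with h0 | h0
    · rw [h0, hA1]
      omega
    · rw [hA2 d h0, hMd]
      have h1 : q * ((n - x) / q) ≤ n - x := Nat.mul_div_le _ _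
      omega
  have hbig2 : q * ((2 * L + 3) * (t (d + 1) + 1)) + k + r₀ ≤ x := by
    have ht1 : t (d + 1) + 1 ≤ 4 * q * b ^ (d + 2) := by
      have h1 := htD (d + 1) le_rfl
      have h2 : 1 ≤ 2 * q * b ^ (d + 2) :=
        Nat.mul_pos (by omega) (Nat.pow_pos hb1)
      have h3 : 4 * q * b ^ (d + 2) = 2 * q * b ^ (d + 2) + 2 * q * b ^ (d + 2) := by ring
      omega
    have h1 : q * ((2 * L + 3) * (t (d + 1) + 1)) ≤ b ^ (d + 4) := by
      calc q * ((2 * L + 3) * (t (d + 1) + 1)) ≤ q * ((3 * b) * (4 * q * b ^ (d + 2))) := by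
            apply Nat.mul_le_mul_left
            exact Nat.mul_le_mul (by omega) ht1
        _ = (12 * q ^ 2) * b ^ (d + 3) := by ring
        _ ≤ b * b ^ (d + 3) := Nat.mul_le_mul_right _ (by omega)
        _ = b ^ (d + 4) := by ring
    have h2 : b ^ 2 ≤ b ^ (d + 4) := Nat.pow_le_pow_right hb1 (by omega)
    have h3 : b ≤ b ^ 2 := Nat.le_self_pow (by norm_num) b
    have h4 : 3 * b ^ (d + 4) ≤ x := by
      calc 3 * b ^ (d + 4) ≤ b * b ^ (d + 4) := Nat.mul_le_mul_right _ (by omega)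
        _ = b ^ (d + 5) := by ring
        _ ≤ x := hxb _ (by omega)
    omega
  have hr₀n : r₀ ≤ n := by omega
  have hsnd := hSND p q n k L (t (d + 1)) r₀ l ρ T π hp (by omega) hkl hdvd hr₀n hR hρ (by
      rw [Nat.mul_add]
      omega) (by omega) (fun ψ hψ => (hT' ψ hψ).1) (fun ψ hψ => (hT' ψ hψ).2.1)
    (fun ψ hψ => (hT' ψ hψ).2.2) hpr
  -- the counting principle
  have hAt := hCAT p q n k (by omega) hqk
  have hocc : countFml p q n ∈ Occurring π := ⟨_, hC, self_mem_subs _⟩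
  have hTc := (hT' _ hocc).2.1 hAt
  obtain ⟨g1, g2, g3, g4⟩ := hTRE p q n k r₀ (by omega) (by omega) _ hAt
  obtain ⟨R, c, hRU, hRc, -, -, -⟩ := hR (cov ρ ∪ minS k (countFml p q n)) (by
    have h1 := Finset.card_union_le (cov ρ) (minS k (countFml p q n))
    rw [hρ.card_cov] at h1
    have h2 := g1.1
    omega)
  obtain ⟨a, ha⟩ := hdvd
  have hcovc : (Finset.univ \ (R ∪ cov ρ)).card = q * (a - ρ.card) := by
    rw [Finset.card_sdiff_of_subset (Finset.subset_univ _), Finset.card_univ, hcardV,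
      Finset.card_union_of_disjoint (Finset.disjoint_of_subset_right Finset.subset_union_left hRU),
      hRc, hρ.card_cov, Nat.mul_sub, ← ha]
    omega
  obtain ⟨P', hP1, hP2, hP3, hP4⟩ := exists_partition (q := q) (a - ρ.card) _ hcovc
  have hP'pm : PM q P' := ⟨hP1, hP2⟩
  have hcovP' : cov P' = Finset.univ \ (R ∪ cov ρ) := by
    ext v
    rw [mem_cov]
    constructor
    · rintro ⟨e, he, hv⟩
      exact hP4 e he hv
    · intro hv
      exact hP3 v hv
  have hPpm : PM q (ρ ∪ P') := by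
    apply hρ.union hP'pm
    rw [hcovP']
    exact Finset.disjoint_of_subset_left Finset.subset_union_right Finset.disjoint_sdiff
  have hdR : Disjoint R (cov ρ) :=
    Finset.disjoint_of_subset_right Finset.subset_union_left hRU
  have hcovP : cov (ρ ∪ P') = Finset.univ \ R := by
    rw [cov_union, hcovP']
    ext v
    simp only [Finset.mem_union, Finset.mem_sdiff, Finset.mem_univ, true_and]
    constructor
    · rintro (h | h)
      · exact fun hR => Finset.disjoint_left.1 hdR hR h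
      · exact fun hR => h (Or.inl hR)
    · intro h
      by_cases h' : v ∈ cov ρ
      · exact Or.inl h'
      · exact Or.inr fun h2 => h2.elim h h'
  obtain ⟨m, bb, hbr, hmP, hval⟩ := g4 ρ (ρ ∪ P') R ⟨hRc, hPpm, hcovP⟩ Finset.subset_union_left
    ((Finset.disjoint_of_subset_right Finset.subset_union_right hRU).symm)
  have htrue := hsnd _ hC m bb (by rw [hTc]; exact hbr)
  have hV := hval.1 htrue
  have hnV := not_V_count (p := p) (k := k) (g := 1) (W := Finset.univ) (R := R) (P := ρ ∪ P') (q := q)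
    (Finset.subset_univ _) (by omega) (by omega) (by
      rw [Finset.card_univ, hcardV]
      omega) hPpm.1 hPpm.2 (fun v hv => by
      rw [← mem_cov, hcovP, Finset.mem_sdiff]
      exact ⟨Finset.mem_univ _, hv⟩) (fun e he => by
      rw [Finset.disjoint_left]
      intro v hv hvR
      have h1 : v ∈ cov (ρ ∪ P') := mem_cov.2 ⟨e, he, hv⟩
      rw [hcovP, Finset.mem_sdiff] at h1
      exact h1.2 hvR)
  rw [image_one] at hnV
  exact hnV hV

end Pool.Agent.L0h71.AS
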