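import Pool.Agent.L0h20.AS.Stm
import Pool.Agent.L0h20.SY.World2
import Pool.Agent.L0h20.SY.Core

set_option autoImplicit false

/-!
# AS/WLD: the truth assignment which belongs to a system
-/

namespace Pool.Agent.L0h71.AS.Wld

open Pool.Agent.L0h36.BG Pool.Agent.L0h36.BF Pool.Agent.L0h20.SY Pool.Agent.L0h20.AS

variable {p n : ℕ}

theorem self_subs (φ : Fml p (Finset (Fin n))) : φ ∈ φ.subs := by
  cases φ with
  | var x => exact rfl
  | _ => exact Set.mem_insert _ _

theorem atomic_AtK (k : ℕ) : Atomic (AtK p n k) := by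
  refine ⟨?_, ?_, ?_, ?_⟩
  · intro φ
    constructor
    · intro h ψ hψ
      exact h ψ (Set.mem_insert_of_mem _ hψ)
    · intro h ψ hψ
      rcases hψ with hψ | hψ
      · obtain ⟨B, h1, h2⟩ := h φ (self_subs φ)
        rw [hψ]
        exact ⟨B, h1, sup_neg_iff.2 h2⟩
      · exact h ψ hψ
  · intro m f h j ψ hψ
    exact h ψ (Set.mem_insert_of_mem _ (Set.mem_iUnion.2 ⟨j, hψ⟩))
  · intro m f h j ψ hψ
    exact h ψ (Set.mem_insert_of_mem _ (Set.mem_iUnion.2 ⟨j, hψ⟩))
  · intro i m f h j ψ hψ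
    exact h ψ (Set.mem_insert_of_mem _ (Set.mem_iUnion.2 ⟨j, hψ⟩))

section leaves

variable {q : ℕ} {At : Set (Fml p (Finset (Fin n)))} {T : Fml p (Finset (Fin n)) → DT (Fin n)}
  {ρ : Finset (Finset (Fin n))}

theorem not_pm_self {χ : Fml p (Finset (Fin n))} {m τ : Finset (Finset (Fin n))} {b b' : Bool}
    (h : Br q (T χ) ρ m b) (h' : Br q (T χ) ρ τ b') (hb : b ≠ b') : ¬ PM q (m ∪ τ) := fun hpm =>
  hb (h.unique h' hpm Finset.subset_union_left Finset.subset_union_right).2

theorem and_L1 {χ : Fml p (Finset (Fin n))} (hLC : χ ∉ At → LCa q At T ρ χ)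
    {m : Finset (Finset (Fin n))} (h : Br q (T χ) ρ m false) :
    ∃ ξ ∈ andL At χ, ∃ τ, Br q (T ξ) ρ τ false ∧ τ ⊆ m := by
  cases χ with
  | and l f =>
    by_cases hA : Fml.and l f ∈ At
    · refine ⟨Fml.and l f, ?_, m, h, Finset.Subset.refl _⟩
      rw [Pool.Agent.L0h20.AS.andL, if_pos hA]
      exact rfl
    · exact (hLC hA).1 m h
  | var x => exact ⟨_, rfl, m, h, Finset.Subset.refl _⟩
  | neg φ => exact ⟨_, rfl, m, h, Finset.Subset.refl _⟩
  | or l f => exact ⟨_, rfl, m, h, Finset.Subset.refl _⟩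
  | mod i l f => exact ⟨_, rfl, m, h, Finset.Subset.refl _⟩

theorem or_L1 {χ : Fml p (Finset (Fin n))} (hLC : χ ∉ At → LCa q At T ρ χ)
    {m : Finset (Finset (Fin n))} (h : Br q (T χ) ρ m true) :
    ∃ ξ ∈ orL At χ, ∃ τ, Br q (T ξ) ρ τ true ∧ τ ⊆ m := by
  cases χ with
  | or l f =>
    by_cases hA : Fml.or l f ∈ At
    · refine ⟨Fml.or l f, ?_, m, h, Finset.Subset.refl _⟩
      rw [Pool.Agent.L0h20.AS.orL, if_pos hA]
      exact rfl
    · exact (hLC hA).1 m h
  | var x => exact ⟨_, rfl, m, h, Finset.Subset.refl _⟩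
  | neg φ => exact ⟨_, rfl, m, h, Finset.Subset.refl _⟩
  | and l f => exact ⟨_, rfl, m, h, Finset.Subset.refl _⟩
  | mod i l f => exact ⟨_, rfl, m, h, Finset.Subset.refl _⟩

theorem and_L2 {χ : Fml p (Finset (Fin n))} (hLC : χ ∉ At → LCa q At T ρ χ)
    {m : Finset (Finset (Fin n))} (h : Br q (T χ) ρ m true) {ξ : Fml p (Finset (Fin n))}
    (hξ : ξ ∈ andL At χ) {τ : Finset (Finset (Fin n))} (hτ : Br q (T ξ) ρ τ false) :
    ¬ PM q (m ∪ τ) := by
  have key : ξ = χ → ¬ PM q (m ∪ τ) := by
    intro he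
    subst he
    exact not_pm_self h hτ (by decide)
  cases χ with
  | and l f =>
    by_cases hA : Fml.and l f ∈ At
    · rw [Pool.Agent.L0h20.AS.andL, if_pos hA] at hξ
      exact key hξ
    · exact (hLC hA).2 m h ξ hξ τ hτ
  | var x => exact key hξ
  | neg φ => exact key hξ
  | or l f => exact key hξ
  | mod i l f => exact key hξ

theorem or_L2 {χ : Fml p (Finset (Fin n))} (hLC : χ ∉ At → LCa q At T ρ χ)
    {m : Finset (Finset (Fin n))} (h : Br q (T χ) ρ m false) {ξ : Fml p (Finset (Fin n))}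
    (hξ : ξ ∈ orL At χ) {τ : Finset (Finset (Fin n))} (hτ : Br q (T ξ) ρ τ true) :
    ¬ PM q (m ∪ τ) := by
  have key : ξ = χ → ¬ PM q (m ∪ τ) := by
    intro he
    subst he
    exact not_pm_self h hτ (by decide)
  cases χ with
  | or l f =>
    by_cases hA : Fml.or l f ∈ At
    · rw [Pool.Agent.L0h20.AS.orL, if_pos hA] at hξ
      exact key hξ
    · exact (hLC hA).2 m h ξ hξ τ hτ
  | var x => exact key hξ
  | neg φ => exact key hξ
  | and l f => exact key hξ
  | mod i l f => exact key hξ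

end leaves

theorem map_inv_map (σ : Equiv.Perm (Fin n)) (s : Finset (Fin n)) :
    (s.map σ⁻¹.toEmbedding).map σ.toEmbedding = s := by
  rw [Finset.map_map]
  have : (σ⁻¹).toEmbedding.trans σ.toEmbedding = Function.Embedding.refl _ := by
    ext x
    exact congrArg Fin.val (σ.apply_symm_apply x)
  rw [this, Finset.map_refl]

end Pool.Agent.L0h71.AS.Wld

namespace Pool.Agent.L0h71.AS

open Pool.Agent.L0h36.BG Pool.Agent.L0h36.BF Pool.Agent.L0h20.SY Pool.Agent.L0h20.AS
open Pool.Agent.L0h71.AS.Wld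

theorem t_WLD (h1 : S_ROO) (h2 : S_TRE) (h3 : S_EQV) : S_WLD := by
  classical
  intro p q n k l t ρ r P R c T Γ hp hq hc hcl hk hfree hP hρr hrP hcard hroom h2k hΓ hdep hT0 hLC
  obtain ⟨-, hPM, hcovP⟩ := hP
  have hP : Pseudo q R.card P R := ⟨rfl, hPM, hcovP⟩
  have hpmr : PM q r := hPM.mono hrP
  have hpmρ : PM q ρ := hpmr.mono hρr
  have hAR : Disjoint (cov r) R := by
    rw [Finset.disjoint_left]
    intro x hx hxR
    have := cov_mono hrP hx
    rw [hcovP, Finset.mem_sdiff] at this
    exact this.2 hxR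
  obtain ⟨wA, W1, W2, W3⟩ := exists_world2 (W := Finset.univ) (R := R) (A := cov r) (k := k) (c := c)
    hp h_INT h_MAP h_MOV h_PER (Finset.subset_univ R) hc hcl hk hfree (Finset.subset_univ _) hAR
    (by rw [hpmr.card_cov, Finset.card_univ, Fintype.card_fin]; omega)
    (by rw [Finset.card_univ, Fintype.card_fin]; omega) P
  obtain ⟨At1, At2, At3, At4⟩ := atomic_AtK (p := p) (n := n) k
  set At := AtK p n k with hAt
  let w : Fml p (Finset (Fin n)) → Prop := fun φ =>
    if φ ∈ At then wA φ else ∃ m, Br q (T φ) ρ m true ∧ PM q (m ∪ r)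
  have wAt : ∀ φ ∈ At, (w φ ↔ wA φ) := by
    intro φ hφ
    change (if φ ∈ At then wA φ else ∃ m, Br q (T φ) ρ m true ∧ PM q (m ∪ r)) ↔ _
    rw [if_pos hφ]
  have wNot : ∀ φ, φ ∉ At → (w φ ↔ ∃ m, Br q (T φ) ρ m true ∧ PM q (m ∪ r)) := by
    intro φ hφ
    change (if φ ∈ At then wA φ else ∃ m, Br q (T φ) ρ m true ∧ PM q (m ∪ r)) ↔ _
    rw [if_neg hφ]
  -- the values decided inside `r`
  have hin : ∀ φ ∈ Γ, φ ∈ At → ∀ (m : Finset (Finset (Fin n))) (b : Bool), Br q (T φ) ρ m b →
      m ⊆ r → minS k φ ⊆ cov r ∧ (b = true ↔ V Finset.univ R k P φ) := by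
    intro φ hφΓ hφ m b hb hmr
    obtain ⟨-, -, t3, -⟩ := h2 p q n k R.card hq h2k φ hφ
    rw [hT0 φ hφΓ hφ] at hb
    obtain ⟨u1, u2⟩ := t3 ρ m b hpmρ hb
    exact ⟨u1.trans (cov_mono hmr), u2 P R hP (hmr.trans hrP)⟩
  have hgood : ∀ φ, φ ∈ At → minS k φ ⊆ cov r → Good Finset.univ R k (cl φ) ∧
      Sup Finset.univ (cov r) (cl φ) := by
    intro φ hφ hsub
    obtain ⟨⟨t1, t2, -⟩, -, -, -⟩ := h2 p q n k R.card hq h2k φ hφ
    refine ⟨⟨minS k φ, Finset.subset_univ _, t1, ?_, t2⟩, sup_of_eq t2 hsub⟩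
    exact Finset.disjoint_of_subset_left hsub hAR
  have DEC : ∀ φ ∈ Γ, ∀ (m : Finset (Finset (Fin n))) (b : Bool), Br q (T φ) ρ m b → m ⊆ r →
      (w φ ↔ b = true) := by
    intro φ hφΓ m b hb hmr
    by_cases hφ : φ ∈ At
    · obtain ⟨u1, u2⟩ := hin φ hφΓ hφ m b hb hmr
      rw [wAt φ hφ, u2]
      exact W1 φ (hgood φ hφ u1).1
    · rw [wNot φ hφ]
      constructor
      · rintro ⟨m', hm', hpm⟩
        exact (hm'.unique hb hpm Finset.subset_union_left (hmr.trans Finset.subset_union_right)).2.symm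
      · intro h
        subst h
        exact ⟨m, hb, by rw [Finset.union_eq_right.2 hmr]; exact hpmr⟩
  have EXT : ∀ φ ∈ Γ, ∀ B : Bool, (∀ (m : Finset (Finset (Fin n))) (b : Bool), Br q (T φ) ρ m b →
      PM q (m ∪ r) → b = B) → (w φ ↔ B = true) := by
    intro φ hφΓ B hB
    by_cases hφ : φ ∈ At
    · obtain ⟨⟨t1, t2, t3⟩, -, -, t4⟩ := h2 p q n k R.card hq h2k φ hφ
      obtain ⟨σ, -, s2, s3, s4⟩ := W3 φ (by
        obtain ⟨B', hB1, hB2⟩ := hφ φ (self_subs φ)
        exact ⟨B', Finset.subset_univ _, hB1, hB2⟩)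
      set R' := R.map σ⁻¹.toEmbedding with hR'
      set P' := P.image fun e => e.map σ⁻¹.toEmbedding with hP'
      have e1 : R'.map σ.toEmbedding = R := map_inv_map σ R
      have e2 : (P'.image fun e => e.map σ.toEmbedding) = P := by
        rw [hP', Finset.image_image]
        have : ((fun e : Finset (Fin n) => e.map σ.toEmbedding) ∘
            fun e : Finset (Fin n) => e.map σ⁻¹.toEmbedding) = id := by
          funext e
          exact map_inv_map σ e
        rw [this, Finset.image_id]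
      have e3 := h3 p n k R' P' σ φ
      rw [e1, e2] at e3
      have hrP' : r ⊆ P' := by
        intro e he
        rw [hP', Finset.mem_image]
        refine ⟨e, hrP he, ?_⟩
        apply map_eq_of_fix
        intro x hx
        rw [Equiv.Perm.inv_eq_iff_eq]
        exact (s2 x (mem_cov.2 ⟨e, he, hx⟩)).symm
      have hPs : Pseudo q R.card P' R' := by
        refine ⟨by rw [hR', Finset.card_map], ⟨?_, ?_⟩, ?_⟩
        · intro e he
          rw [hP', Finset.mem_image] at he
          obtain ⟨e', he', rfl⟩ := he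
          rw [Finset.card_map]
          exact hPM.1 e' he'
        · intro e he f hf hef
          rw [hP', Finset.mem_image] at he hf
          obtain ⟨e', he', rfl⟩ := he
          obtain ⟨f', hf', rfl⟩ := hf
          rw [Finset.disjoint_map]
          apply hPM.2 e' he' f' hf'
          intro h
          exact hef (by rw [h])
        · ext x
          rw [mem_cov, Finset.mem_sdiff]
          constructor
          · rintro ⟨e, he, hx⟩
            rw [hP', Finset.mem_image] at he
            obtain ⟨e', he', rfl⟩ := he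
            rw [Finset.mem_map] at hx
            obtain ⟨y, hy, rfl⟩ := hx
            refine ⟨Finset.mem_univ _, ?_⟩
            rw [hR', Finset.mem_map']
            have hy' : y ∈ cov P := mem_cov.2 ⟨e', he', hy⟩
            rw [hcovP, Finset.mem_sdiff] at hy'
            exact hy'.2
          · rintro ⟨-, hx⟩
            have hy : σ x ∈ cov P := by
              rw [hcovP, Finset.mem_sdiff]
              refine ⟨Finset.mem_univ _, fun h => hx ?_⟩
              rw [hR', Finset.mem_map]
              exact ⟨σ x, h, σ.symm_apply_apply x⟩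
            obtain ⟨e, he, hxe⟩ := mem_cov.1 hy
            refine ⟨e.map σ⁻¹.toEmbedding, ?_, ?_⟩
            · rw [hP', Finset.mem_image]
              exact ⟨e, he, rfl⟩
            · rw [Finset.mem_map]
              exact ⟨σ x, hxe, σ.symm_apply_apply x⟩
      have hdis : Disjoint (minS k φ) R' := by
        obtain ⟨B', -, b2, b3, b4⟩ := s3
        have b5 := h_MAP (Fin n) (Cl p n) Finset.univ B' (cl (image σ φ)) σ⁻¹
          (fun x hx => absurd (Finset.mem_univ x) hx) b4
        rw [← smul_cl, inv_smul_smul] at b5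
        have b6 := t3 _ (by rw [Finset.card_map]; exact b2) b5
        refine Finset.disjoint_of_subset_left b6 ?_
        rw [hR', Finset.disjoint_map]
        exact b3
      obtain ⟨m, b, m1, m2, m3⟩ := t4 ρ P' R' hPs (hρr.trans hrP') hdis
      have m4 : PM q (m ∪ r) := hPs.2.1.mono (Finset.union_subset m2 hrP')
      rw [← hT0 φ hφΓ hφ] at m1
      have m5 := hB m b m1 m4
      rw [wAt φ hφ, s4, e3, ← m3, m5]
    · rw [wNot φ hφ]
      constructor
      · rintro ⟨m', hm', hpm⟩
        exact (hB m' true hm' hpm).symm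
      · intro h
        obtain ⟨m, b, u1, u2, -⟩ := h1 q n t (T φ) ρ r hq hpmr hρr (hdep φ hφΓ) hroom
        have u3 := hB m b u1 u2
        rw [u3, h] at u1
        exact ⟨m, u1, u2⟩
  refine ⟨w, DEC, ?_⟩
  obtain ⟨Γ1, Γ2, Γ3, Γ4⟩ := hΓ
  have hLC' : ∀ ψ ∈ Γ, ψ ∉ At → LCa q At T ρ ψ := hLC
  rintro ψ hψΓ ⟨m, b, hb, hmr⟩
  by_cases hψ : ψ ∈ At
  · obtain ⟨u1, u2⟩ := hin ψ hψΓ hψ m b hb hmr
    obtain ⟨g1, g2⟩ := hgood ψ hψ u1
    have hC := W2 ψ g1 g2 (by
      intro ψ' hψ'
      obtain ⟨B', hB1, hB2⟩ := hψ ψ' hψ'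
      exact ⟨B', Finset.subset_univ _, hB1, hB2⟩)
    cases ψ with
    | var e => exact trivial
    | neg φ =>
      change w (Fml.neg φ) ↔ ¬ w φ
      rw [wAt _ hψ, wAt _ ((At1 φ).1 hψ)]
      exact hC
    | and l f =>
      change w (Fml.and l f) ↔ ∀ j, w (f j)
      rw [wAt _ hψ]
      refine Iff.trans hC (forall_congr' fun j => ?_)
      exact (wAt _ (At2 l f hψ j)).symm
    | or l f =>
      change w (Fml.or l f) ↔ ∃ j, w (f j)
      rw [wAt _ hψ]
      refine Iff.trans hC (exists_congr fun j => ?_)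
      exact (wAt _ (At3 l f hψ j)).symm
    | mod i l f =>
      change w (Fml.mod i l f) ↔ (({j | w (f j)}.ncard : ℕ) : ZMod p) = i
      have hset : {j | w (f j)} = {j | wA (f j)} := by
        ext j
        exact wAt _ (At4 i l f hψ j)
      rw [wAt _ hψ, hset]
      exact hC
  · have hLCψ := hLC' ψ hψΓ hψ
    cases ψ with
    | var e => exact trivial
    | neg φ =>
      change w (Fml.neg φ) ↔ ¬ w φ
      have hLCψ' : T (Fml.neg φ) = (T φ).flip := hLCψ
      have hb' := hb
      rw [hLCψ', Br.flip_iff] at hb'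
      rw [DEC _ hψΓ m b hb hmr, DEC φ (Γ1 φ hψΓ) m (!b) hb' hmr]
      cases b <;> simp
    | and l f =>
      change w (Fml.and l f) ↔ ∀ j, w (f j)
      rw [DEC _ hψΓ m b hb hmr]
      obtain ⟨L1, L2⟩ := hLCψ
      cases b with
      | true =>
        refine iff_of_true rfl fun j => ?_
        rw [EXT (f j) (Γ2 l f hψΓ j) true]
        intro m' b' hm' hpm
        cases b' with
        | true => rfl
        | false =>
          exfalso
          obtain ⟨ξ, x1, τ, x2, x3⟩ := and_L1 (At := At) (hLC' (f j) (Γ2 l f hψΓ j)) hm'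
          have x4 : ξ ∈ andL At (Fml.and l f) := by
            rw [Pool.Agent.L0h20.AS.andL, if_neg hψ]
            exact Set.mem_iUnion.2 ⟨j, x1⟩
          refine L2 m hb ξ x4 τ x2 (hpm.mono ?_)
          exact Finset.union_subset (hmr.trans Finset.subset_union_right)
            (x3.trans Finset.subset_union_left)
      | false =>
        refine iff_of_false (by decide) fun hall => ?_
        obtain ⟨ξ, x1, τ, x2, x3⟩ := L1 m hb
        rw [Pool.Agent.L0h20.AS.andL, if_neg hψ] at x1
        obtain ⟨j, x1⟩ := Set.mem_iUnion.1 x1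
        have := hall j
        rw [EXT (f j) (Γ2 l f hψΓ j) false] at this
        · exact absurd this (by decide)
        intro m' b' hm' hpm
        cases b' with
        | false => rfl
        | true =>
          exfalso
          refine and_L2 (At := At) (hLC' (f j) (Γ2 l f hψΓ j)) hm' x1 x2 (hpm.mono ?_)
          exact Finset.union_subset Finset.subset_union_left
            ((x3.trans hmr).trans Finset.subset_union_right)
    | or l f =>
      change w (Fml.or l f) ↔ ∃ j, w (f j)
      rw [DEC _ hψΓ m b hb hmr]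
      obtain ⟨L1, L2⟩ := hLCψ
      cases b with
      | false =>
        refine iff_of_false (by decide) ?_
        rintro ⟨j, hj⟩
        rw [EXT (f j) (Γ3 l f hψΓ j) false] at hj
        · exact absurd hj (by decide)
        intro m' b' hm' hpm
        cases b' with
        | false => rfl
        | true =>
          exfalso
          obtain ⟨ξ, x1, τ, x2, x3⟩ := or_L1 (At := At) (hLC' (f j) (Γ3 l f hψΓ j)) hm'
          have x4 : ξ ∈ orL At (Fml.or l f) := by
            rw [Pool.Agent.L0h20.AS.orL, if_neg hψ]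
            exact Set.mem_iUnion.2 ⟨j, x1⟩
          refine L2 m hb ξ x4 τ x2 (hpm.mono ?_)
          exact Finset.union_subset (hmr.trans Finset.subset_union_right)
            (x3.trans Finset.subset_union_left)
      | true =>
        refine iff_of_true rfl ?_
        obtain ⟨ξ, x1, τ, x2, x3⟩ := L1 m hb
        rw [Pool.Agent.L0h20.AS.orL, if_neg hψ] at x1
        obtain ⟨j, x1⟩ := Set.mem_iUnion.1 x1
        refine ⟨j, ?_⟩
        rw [EXT (f j) (Γ3 l f hψΓ j) true]
        intro m' b' hm' hpm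
        cases b' with
        | true => rfl
        | false =>
          exfalso
          refine or_L2 (At := At) (hLC' (f j) (Γ3 l f hψΓ j)) hm' x1 x2 (hpm.mono ?_)
          exact Finset.union_subset Finset.subset_union_left
            ((x3.trans hmr).trans Finset.subset_union_right)
    | mod i l f =>
      change w (Fml.mod i l f) ↔ (({j | w (f j)}.ncard : ℕ) : ZMod p) = i
      rw [DEC _ hψΓ m b hb hmr]
      obtain ⟨cc, c1, c2⟩ := hLCψ m b hb
      have hw : ∀ j, (w (f j) ↔ cc j = true) := by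
        intro j
        obtain ⟨τ, x1, x2⟩ := c1 j
        exact DEC (f j) (Γ4 i l f hψΓ j) τ (cc j) x1 (x2.trans hmr)
      have hset : {j | w (f j)} = ((Finset.univ.filter fun j => cc j = true : Finset (Fin l)) :
          Set (Fin l)) := by
        ext j
        rw [Set.mem_ofPred_eq, hw j]
        simp
      rw [c2, hset, Set.ncard_coe_finset, Finset.sum_boole]

end Pool.Agent.L0h71.AS
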